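import Pool.Agent.H37.UMD.Stmts

/-! # Ultimate matching: a finite net of directions -/

set_option autoImplicit false

open MeasureTheory ProbabilityTheory

namespace Pool.UMD

theorem NET_circle_compact : IsCompact {u : ℝ × ℝ | u.1 ^ 2 + u.2 ^ 2 = 1} := by
  refine Metric.isCompact_of_isClosed_isBounded ?_ ?_
  · exact isClosed_eq (by fun_prop) continuous_const
  · refine (Metric.isBounded_closedBall (x := (0 : ℝ × ℝ)) (r := 1)).subset fun u hu => ?_
    have hu' : u.1 ^ 2 + u.2 ^ 2 = 1 := hu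
    rw [Metric.mem_closedBall, dist_zero_right, Prod.norm_def, max_le_iff, Real.norm_eq_abs,
      Real.norm_eq_abs]
    constructor
    · rw [abs_le_one_iff_mul_self_le_one]; nlinarith [sq_nonneg u.2]
    · rw [abs_le_one_iff_mul_self_le_one]; nlinarith [sq_nonneg u.1]

theorem sNet : SNet := by
  obtain ⟨t, hts, htf, htc⟩ := NET_circle_compact.finite_cover_balls
    (show (0 : ℝ) < 1 / 100 by norm_num)
  have hcov : ∀ u : ℝ × ℝ, u.1 ^ 2 + u.2 ^ 2 = 1 → ∃ e ∈ t, dist u e < 1 / 100 := by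
    intro u hu
    have := htc hu
    simp only [Set.mem_iUnion, Metric.mem_ball, exists_prop] at this
    exact this
  refine ⟨htf.toFinset, ?_, ?_, ?_⟩
  · obtain ⟨e, he, _⟩ := hcov (1, 0) (by norm_num)
    exact ⟨e, htf.mem_toFinset.2 he⟩
  · intro e he
    exact hts (htf.mem_toFinset.1 he)
  · intro u hu
    obtain ⟨e, he, hd⟩ := hcov u hu
    refine ⟨e, htf.mem_toFinset.2 he, ?_⟩
    have he1 : e.1 ^ 2 + e.2 ^ 2 = 1 := hts he
    rw [Prod.dist_eq, max_lt_iff, Real.dist_eq, Real.dist_eq] at hd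
    have h1 : (u.1 - e.1) ^ 2 ≤ (1 / 100) ^ 2 := by
      rw [← sq_abs]; exact pow_le_pow_left₀ (abs_nonneg _) hd.1.le 2
    have h2 : (u.2 - e.2) ^ 2 ≤ (1 / 100) ^ 2 := by
      rw [← sq_abs]; exact pow_le_pow_left₀ (abs_nonneg _) hd.2.le 2
    have h3 : dot u e = 1 - ((u.1 - e.1) ^ 2 + (u.2 - e.2) ^ 2) / 2 := by
      unfold dot; nlinarith
    rw [h3]
    nlinarith [sq_nonneg (u.1 - e.1), sq_nonneg (u.2 - e.2)]

end Pool.UMD
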