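import Pool.Agent.H37.UMD.Stmts2

/-! # Ultimate matching: properties of `ψ_β` -/

set_option autoImplicit false

open MeasureTheory ProbabilityTheory

namespace Pool.UMD

theorem PSI_one_le (s : ℝ) : 1 ≤ 1 + Real.log (1 + s ^ 2) := by
  have : 0 ≤ Real.log (1 + s ^ 2) := Real.log_nonneg (by nlinarith [sq_nonneg s])
  linarith

theorem PSI_mono {s t : ℝ} (h : |s| ≤ |t|) :
    1 + Real.log (1 + s ^ 2) ≤ 1 + Real.log (1 + t ^ 2) := by
  have h1 : s ^ 2 ≤ t ^ 2 := sq_le_sq.2 h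
  have h2 : Real.log (1 + s ^ 2) ≤ Real.log (1 + t ^ 2) :=
    Real.log_le_log (by positivity) (by linarith)
  linarith

theorem PSI_rpow_mono {β s t : ℝ} (hβ : 0 < β) (h : |s| ≤ |t|) :
    (1 + Real.log (1 + s ^ 2)) ^ β ≤ (1 + Real.log (1 + t ^ 2)) ^ β :=
  Real.rpow_le_rpow (by linarith [PSI_one_le s]) (PSI_mono h) hβ.le

theorem PSI_log : Real.log (9 / 4) ≤ 1 := by
  have h1 : Real.log (9 / 4) ≤ Real.log (Real.exp 1) := by
    refine Real.log_le_log (by norm_num) ?_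
    have := Real.exp_one_gt_d9
    linarith
  rwa [Real.log_exp] at h1

theorem sPsi : SPsi := by
  intro β hβ hβ1
  have hpos : ∀ s : ℝ, 0 ≤ (1 + Real.log (1 + s ^ 2)) ^ β := fun s =>
    Real.rpow_nonneg (by linarith [PSI_one_le s]) _
  refine ⟨?_, ?_, ?_, ?_⟩
  · intro s
    unfold psi
    have h1 : 1 ≤ (1 + Real.log (1 + s ^ 2)) ^ β := Real.one_le_rpow (PSI_one_le s) hβ.le
    nlinarith [abs_nonneg s]
  · intro s t h
    unfold psi
    exact mul_le_mul h (PSI_rpow_mono hβ h) (hpos s) (abs_nonneg t)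
  · intro s
    unfold psi
    have h1 : |3 / 2 * s| = 3 / 2 * |s| := by
      rw [abs_mul, abs_of_pos (by norm_num : (0 : ℝ) < 3 / 2)]
    have h2 : Real.log (1 + (3 / 2 * s) ^ 2) ≤ 1 + Real.log (1 + s ^ 2) := by
      have h3 : Real.log (1 + (3 / 2 * s) ^ 2) ≤ Real.log (9 / 4 * (1 + s ^ 2)) :=
        Real.log_le_log (by positivity) (by nlinarith [sq_nonneg s])
      rw [Real.log_mul (by norm_num) (by positivity)] at h3
      linarith [PSI_log]
    have h4 : (1 + Real.log (1 + (3 / 2 * s) ^ 2)) ^ β ≤ 2 * (1 + Real.log (1 + s ^ 2)) ^ β := by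
      have h5 : (1 + Real.log (1 + (3 / 2 * s) ^ 2)) ^ β ≤
          (2 * (1 + Real.log (1 + s ^ 2))) ^ β :=
        Real.rpow_le_rpow (by linarith [PSI_one_le (3 / 2 * s)])
          (by linarith [PSI_one_le s]) hβ.le
      rw [Real.mul_rpow (by norm_num) (by linarith [PSI_one_le s])] at h5
      have h6 : (2 : ℝ) ^ β ≤ 2 := by
        calc (2 : ℝ) ^ β ≤ 2 ^ (1 : ℝ) :=
              Real.rpow_le_rpow_of_exponent_le (by norm_num) (by linarith)
          _ = 2 := Real.rpow_one 2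
      exact h5.trans (mul_le_mul_of_nonneg_right h6 (hpos s))
    rw [h1]
    calc 3 / 2 * |s| * (1 + Real.log (1 + (3 / 2 * s) ^ 2)) ^ β
        ≤ 3 / 2 * |s| * (2 * (1 + Real.log (1 + s ^ 2)) ^ β) :=
          mul_le_mul_of_nonneg_left h4 (by positivity)
      _ = 3 * (|s| * (1 + Real.log (1 + s ^ 2)) ^ β) := by ring
  · intro s lam h0 h1
    unfold psi
    have h2 : |lam * s| = lam * |s| := by rw [abs_mul, abs_of_nonneg h0]
    have h3 : |lam * s| ≤ |s| := by
      rw [h2]; nlinarith [abs_nonneg s]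
    rw [h2, mul_assoc]
    exact mul_le_mul_of_nonneg_left
      (mul_le_mul_of_nonneg_left (PSI_rpow_mono hβ h3) (abs_nonneg s)) h0

end Pool.UMD
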